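import Pool.Agent.Y825.CR.NotOne

/-!
# An infinite family of groups with cyclic relation module which are not one-relator groups

For all coprime `p, q ≥ 2` the group `Gpq p q = ⟨a, t | a^(pq), [a^p, t a^q t⁻¹]⟩` has cyclic
relation module and is not a one-relator group; the groups with different products `pq` are not
isomorphic.  The definitions `HasCyclicRelationModule`, `IsOneRelatorGroup` are those of the
starting result `CyclicNotOneRelator` (the case `p = 2`, `q = 3`).
-/

set_option autoImplicit false

universe v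

open Pool.Agent.Results.MP_8396f3_al.CyclicNotOneRelator Pool.Agent.Y825.CR

/-- For all coprime `p, q ≥ 2` the group `⟨a, t | a^(pq), [a^p, t a^q t⁻¹]⟩` has cyclic relation
module but is not a one-relator group, and groups of this kind with different `pq` are not
isomorphic. -/
theorem Pool.Agent.Results.MP_8396f3_al.CoprimeFamily.result :
    (∀ p q : ℕ, 2 ≤ p → 2 ≤ q → p.Coprime q →
      HasCyclicRelationModule (Gpq p q) ∧ ¬ IsOneRelatorGroup.{0, v} (Gpq p q)) ∧
    (∀ p q p' q' : ℕ, 2 ≤ p → 2 ≤ q → 2 ≤ p' → 2 ≤ q' → p * q ≠ p' * q' →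
      IsEmpty (Gpq p q ≃* Gpq p' q')) := by
  refine ⟨fun p q hp hq hpq => ⟨hasCyclicPQ p q (by omega) (by omega) hpq,
    notOneRelatorPQ hp hq⟩, fun p q p' q' hp hq hp' hq' hne => ⟨fun e => hne ?_⟩⟩
  exact Nat.dvd_antisymm (dvd_of_iso hp hq e) (dvd_of_iso hp' hq' e.symm)
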